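import Pool.Agent.Lib.MP_75b31c_lc.H40.Main

set_option autoImplicit false

/-!
# MP_75b31c_lc: reductions of Bernoulli shifts to Turing equivalence are non-uniform almost everywhere

Let `Γ` be a countable group and `γ 0, γ 1, …` an infinite sequence of elements which freely
generates a free subgroup. Let `Γ` act on `2 ^ Γ` by the shift and let `μ` be the fair coin measure.
Let `f : 2 ^ Γ → 2 ^ ℕ` be Borel such that for `x, y` in a conull Borel set `Y`, Turing equivalence
of `f x` and `f y` implies that `x` and `y` lie in one orbit. Then for almost every `x` the sequence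
`f (γ 0 • x), f (γ 1 • x), …` (the join of these points) is not computable from `f x`.

For a Borel reduction `f` of the orbit relation (on a conull invariant set) to Turing equivalence,
`f x` computes every single `f (γ j • x)`; so the theorem says that it does so non-uniformly for
almost every `x` and along every infinite free family. For instance `Γ` may be the free group on
`a, b` and `γ j = b ^ j * a * (b ^ j)⁻¹`; a uniform reduction, in the sense of the problem, would
compute this sequence by iterating the four functionals which belong to `a`, `b` and their inverses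
(this consequence is `thmE` in `Pool/Agent/Lib/MP_75b31c_lc/H40/Main2.lean`).
-/

namespace Pool.Agent.Results.MP_75b31c_lc.FreeFamilies

open MeasureTheory

/-- The infinite binary sequence `z` as a total function with values `0` and `1`, used as an
oracle. -/
def oracle (z : ℕ → Bool) : ℕ →. ℕ := fun n => Part.some (z n).toNat

/-- The join of a sequence of infinite binary sequences. -/
def join (s : ℕ → ℕ → Bool) : ℕ → Bool := fun n => s n.unpair.1 n.unpair.2

/-- A fair coin. -/
noncomputable def coin : Measure Bool :=
  (2⁻¹ : ENNReal) • Measure.dirac true + (2⁻¹ : ENNReal) • Measure.dirac false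

instance : IsProbabilityMeasure coin := ⟨by
  simp only [coin, Measure.coe_add, Measure.coe_smul, Pi.add_apply, Pi.smul_apply, measure_univ,
    smul_eq_mul, mul_one]
  exact ENNReal.inv_two_add_inv_two⟩

/-- The coin tossing measure on `2 ^ Γ`: the product of fair coins. -/
noncomputable def coinPi (Γ : Type) : Measure (Γ → Bool) := Measure.infinitePi fun _ => coin

/-- The shift action of `Γ` on `2 ^ Γ`: `(γ · x) δ = x (γ⁻¹ δ)`. -/
def shift {Γ : Type} [Group Γ] (γ : Γ) (x : Γ → Bool) : Γ → Bool := fun δ => x (γ⁻¹ * δ)

/-- **Theorem.** If `f x`, `f y` Turing equivalent implies `x`, `y` in one orbit of the shift, for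
`x`, `y` in a conull Borel set, and the `γ j` freely generate a free subgroup, then for almost
every `x` the join of the points `f (γ j · x)` is not Turing reducible to `f x`. -/
theorem result (Γ : Type) [Group Γ] [Countable Γ] (γ : ℕ → Γ)
    (hγ : Function.Injective (FreeGroup.lift γ : FreeGroup ℕ →* Γ))
    (Y : Set (Γ → Bool)) (hY : MeasurableSet Y) (hY1 : coinPi Γ Yᶜ = 0) (f : (Γ → Bool) → ℕ → Bool)
    (hf : Measurable f)
    (hred : ∀ x ∈ Y, ∀ y ∈ Y, TuringEquivalent (oracle (f x)) (oracle (f y)) →
      ∃ g : Γ, shift g x = y) :
    ∀ᵐ x ∂(coinPi Γ),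
      ¬ TuringReducible (oracle (join fun j => f (shift (γ j) x))) (oracle (f x)) :=
  Lib.MP_75b31c_lc.H40.thmB Γ γ hγ Y hY hY1 f hf hred

end Pool.Agent.Results.MP_75b31c_lc.FreeFamilies
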