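import Pool.Agent.Lib.MP_75b31c_lc.H55.Shift

set_option autoImplicit false

/-!
# MP_75b31c_lc: Turing equivalence is not a universal countable Borel equivalence relation

Let `Γ` be a countable group which contains a free group of rank two, and let `E(Γ, 2)` be the orbit
equivalence relation of the shift action of `Γ` on `2 ^ Γ`. This is a countable Borel equivalence
relation, and it is not Borel reducible to Turing equivalence on `2 ^ ℕ`. For `Γ` free of rank two
this is the canonical universal countable Borel equivalence relation `E(F_2, 2)` of the problem.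

The proof deduces this from the relation `FF` in `Pool/Agent/Lib/MP_75b31c_lc/N40` (whose
non-reducibility uses the Decoding Lemma and Borel determinacy, proved there) by an explicit
reduction of `FF` to `E(F_2, 2)`.
-/

namespace Pool.Agent.Results.MP_75b31c_lc.FreeGroupShifts

open MeasureTheory

/-- The infinite binary sequence `z` as a total function with values `0` and `1`, used as an
oracle. -/
def oracle (z : ℕ → Bool) : ℕ →. ℕ := fun n => Part.some (z n).toNat

/-- The shift action of `Γ` on `2 ^ Γ`: `(γ · x) δ = x (γ⁻¹ δ)`. -/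
def shift {Γ : Type} [Group Γ] (γ : Γ) (x : Γ → Bool) : Γ → Bool := fun δ => x (γ⁻¹ * δ)

/-- The orbit equivalence relation `E(Γ, 2)` of the shift action. -/
def E2 (Γ : Type) [Group Γ] (x y : Γ → Bool) : Prop := ∃ γ : Γ, shift γ x = y

/-- **Theorem.** For every countable group `Γ` with a free subgroup of rank two, `E(Γ, 2)` is a
countable Borel equivalence relation which is not Borel reducible to Turing equivalence. -/
theorem result (Γ : Type) [Group Γ] [Countable Γ] (ι : FreeGroup (Fin 2) →* Γ)
    (hι : Function.Injective ι) :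
    (Equivalence (E2 Γ) ∧ MeasurableSet {p : (Γ → Bool) × (Γ → Bool) | E2 Γ p.1 p.2} ∧
      ∀ x : Γ → Bool, Set.Countable {y : Γ → Bool | E2 Γ x y}) ∧
    ¬ ∃ f : (Γ → Bool) → ℕ → Bool, Measurable f ∧
      ∀ x y, E2 Γ x y ↔ TuringEquivalent (oracle (f x)) (oracle (f y)) := by
  refine ⟨⟨Lib.MP_75b31c_lc.H55.orbit_equivalence Γ, Lib.MP_75b31c_lc.H55.orbit_measurable Γ,
    Lib.MP_75b31c_lc.H55.orbit_countable Γ⟩, ?_⟩
  rintro ⟨f, hf, hred⟩
  exact Lib.MP_75b31c_lc.H55.not_reducible Γ ι hι f hf hred

end Pool.Agent.Results.MP_75b31c_lc.FreeGroupShifts
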