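import Pool.Agent.Lib.MP_75b31c_lc.H40.Main

set_option autoImplicit false

/-!
# MP_75b31c_lc: a reduction to Turing equivalence is singular to every law which its values compute

Let a countable group `Γ` act by Borel automorphisms on a standard Borel space `X`, preserving the
probability measure `μ`. Let `f : X → 2 ^ ℕ` be Borel and suppose that, on a conull Borel set `Y`,
Turing equivalence of `f x` and `f y` implies that `x` and `y` lie in one orbit (every Borel
reduction, on a conull set, of the orbit relation to Turing equivalence has this property; `f` need
not be uniform and need not even map orbits into Turing degrees). Let `ν` be any atomless Borel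
probability measure on `2 ^ ℕ` and `B` the set of all `x` such that `f x` computes `ν`. Then the
image of `μ` restricted to `B` under `f` is singular with respect to `ν`.

In particular (`ν` = the law of `f`) almost no `f x` computes the law of `f`, and the law of `f` is
singular with respect to every computable atomless measure.

The proof (Borel isomorphism of an atomless measure with Lebesgue measure by its distribution
function, rational affine maps between points which compute the measure, selection from orbits,
mass transport and a density point) is in `Pool/Agent/Lib/MP_75b31c_lc/`.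
-/

namespace Pool.Agent.Results.MP_75b31c_lc.LawObstruction

open MeasureTheory

/-- The infinite binary sequence `z` as a total function with values `0` and `1`, used as an
oracle. -/
def oracle (z : ℕ → Bool) : ℕ →. ℕ := fun n => Part.some (z n).toNat

/-- `val n z` is the number `< 2 ^ n` whose binary digits are `z 0, …, z (n - 1)`, the most
significant digit first. So comparing `val n` is comparing initial segments of length `n`
lexicographically. -/
def val : ℕ → (ℕ → Bool) → ℕ
  | 0, _ => 0
  | n + 1, z => 2 * val n z + (z n).toNat

/-- The distribution function of `ν` at dyadic points: the `ν`-measure of the set of all `u` whose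
initial segment of length `n`, read as a number, is `< v`. -/
noncomputable def cdf (ν : Measure (ℕ → Bool)) (n v : ℕ) : ℝ := ν.real {u | val n u < v}

/-- `z` computes the measure `ν`: some function recursive in `z` approximates the distribution
function of `ν` at all dyadic points with arbitrary precision. -/
def Computes (z : ℕ → Bool) (ν : Measure (ℕ → Bool)) : Prop :=
  ∃ a : ℕ × ℕ × ℕ → ℕ, ComputableIn {oracle z} a ∧
    ∀ k n v : ℕ, v ≤ 2 ^ n → |(a (k, n, v) : ℝ) / 2 ^ k - cdf ν n v| ≤ 1 / 2 ^ k

theorem val_eq (n : ℕ) (z : ℕ → Bool) : val n z = Lib.MP_75b31c_lc.H40.val n z := by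
  induction n with
  | zero => rfl
  | succ n ih => simp only [val, Lib.MP_75b31c_lc.H40.val, ih]

theorem computes_iff (z : ℕ → Bool) (ν : Measure (ℕ → Bool)) :
    Computes z ν ↔ Lib.MP_75b31c_lc.H40.Computes z ν := by
  unfold Computes Lib.MP_75b31c_lc.H40.Computes cdf Lib.MP_75b31c_lc.H40.cdf
  simp only [val_eq]
  rfl

/-- **Theorem.** If `f x`, `f y` Turing equivalent implies `x`, `y` in one orbit of the measure
preserving action, for `x`, `y` in a conull Borel set, then for every atomless probability measure
`ν` on `2 ^ ℕ` the image under `f` of the part of `μ` on which `f x` computes `ν` is singular with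
respect to `ν`. -/
theorem result (Γ : Type) [Group Γ] [Countable Γ] (X : Type) [MeasurableSpace X]
    [StandardBorelSpace X] [MulAction Γ X] (hact : ∀ γ : Γ, Measurable fun x : X => γ • x)
    (μ : Measure X) [IsProbabilityMeasure μ] (hμ : ∀ γ : Γ, μ.map (fun x : X => γ • x) = μ)
    (Y : Set X) (hY : MeasurableSet Y) (hY1 : μ Yᶜ = 0) (f : X → ℕ → Bool) (hf : Measurable f)
    (hred : ∀ x ∈ Y, ∀ y ∈ Y, TuringEquivalent (oracle (f x)) (oracle (f y)) →
      ∃ γ : Γ, γ • x = y)
    (ν : Measure (ℕ → Bool)) [IsProbabilityMeasure ν] (hν : ∀ z, ν {z} = 0) :
    MeasurableSet {x | Computes (f x) ν} ∧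
      (μ.restrict {x | Computes (f x) ν}).map f ⟂ₘ ν := by
  simp only [computes_iff]
  exact ⟨hf (Lib.MP_75b31c_lc.H40.measurableSet_computes ν),
    Lib.MP_75b31c_lc.H40.thmA Γ X hact μ hμ Y hY hY1 f hf hred ν hν⟩

end Pool.Agent.Results.MP_75b31c_lc.LawObstruction
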