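import Pool.Agent.Lib.MP_75b31c_lc.H40.Main

set_option autoImplicit false

/-!
# MP_75b31c_lc: reductions to Turing equivalence and spectral gap

Let a countable group `Γ` act by Borel automorphisms on a standard Borel space `X`, preserving the
atomless probability measure `μ`. Suppose that the action has spectral gap: for some finite list
`s 0 = 1, s 1, …, s (r - 1)` of elements of `Γ` averaging over the list contracts the `L²` norm of
all bounded Borel functions of mean zero by a fixed factor. (Examples: all
ergodic measure preserving actions of groups with property (T), and the Bernoulli shifts of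
non-amenable groups.)

Let `f : X → 2 ^ ℕ` be Borel such that for `x, y` in a conull Borel set `Y`, Turing equivalence
of `f x` and `f y` implies that `x` and `y` lie in one orbit. Then for almost every `x` the join of
all points `f (w • x)`, `w` a word in `s 0, …, s (r - 1)`, is not computable from `f x`.

For a Borel reduction `f` of the orbit relation to Turing equivalence `f x` computes every single
`f (w • x)`. If for every `i` one Turing functional computed `f (s i • y)` from `f y` for all `y` in
the orbit of `x` then `f x` would compute the join (this is `thmD` in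
`Pool/Agent/Lib/MP_75b31c_lc/H40/Main2.lean`). So the theorem says that `f` is non-uniform at almost
every point.
-/

namespace Pool.Agent.Results.MP_75b31c_lc.SpectralGap

open MeasureTheory

/-- The infinite binary sequence `z` as a total function with values `0` and `1`, used as an
oracle. -/
def oracle (z : ℕ → Bool) : ℕ →. ℕ := fun n => Part.some (z n).toNat

/-- The join of a sequence of infinite binary sequences. -/
def join (s : ℕ → ℕ → Bool) : ℕ → Bool := fun n => s n.unpair.1 n.unpair.2

/-- `word r s j` is the product `s d₀ * s d₁ * ⋯ * s d_k` where `d₀, d₁, …, d_k` are the digits of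
`j` in base `r`, the least significant digit first. If `s 0 = 1` then `word r s j`, `j < r ^ m`,
runs through all words of length `m` in `s 0, …, s (r - 1)`. -/
def word {Γ : Type} [Group Γ] (r : ℕ) (s : ℕ → Γ) (j : ℕ) : Γ := ((Nat.digits r j).map s).prod

/-- Spectral gap for the list `s 0, …, s (r - 1)`: averaging over the list contracts the square of
the `L²` norm of bounded Borel functions of mean zero by a factor `κ < 1`. -/
def HasGap {Γ X : Type} [Group Γ] [MeasurableSpace X] [MulAction Γ X] (μ : Measure X) (r : ℕ)
    (s : ℕ → Γ) : Prop :=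
  ∃ κ : ℝ, κ < 1 ∧ ∀ h : X → ℝ, Measurable h → (∃ M, ∀ x, |h x| ≤ M) → ∫ x, h x ∂μ = 0 →
    ∫ x, ((∑ i ∈ Finset.range r, h (s i • x)) / r) ^ 2 ∂μ ≤ κ * ∫ x, h x ^ 2 ∂μ

/-- **Theorem.** If the action has spectral gap for `s 0 = 1, …, s (r - 1)`, the measure has no
atoms, and `f x`, `f y` Turing equivalent implies `x`, `y` in one orbit, for `x`, `y` in a conull
Borel set, then for almost every `x` the join of all `f (w • x)`, `w` a word in the `s i`, is not
Turing reducible to `f x`. -/
theorem result (Γ : Type) [Group Γ] [Countable Γ] (X : Type) [MeasurableSpace X]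
    [StandardBorelSpace X] [MulAction Γ X] (hact : ∀ γ : Γ, Measurable fun x : X => γ • x)
    (μ : Measure X) [IsProbabilityMeasure μ] (hμ : ∀ γ : Γ, μ.map (fun x : X => γ • x) = μ)
    (hatom : ∀ x : X, μ {x} = 0) (r : ℕ) (hr : 2 ≤ r) (s : ℕ → Γ) (hs : s 0 = 1)
    (hgap : HasGap μ r s)
    (Y : Set X) (hY : MeasurableSet Y) (hY1 : μ Yᶜ = 0) (f : X → ℕ → Bool) (hf : Measurable f)
    (hred : ∀ x ∈ Y, ∀ y ∈ Y, TuringEquivalent (oracle (f x)) (oracle (f y)) →
      ∃ γ : Γ, γ • x = y) :
    ∀ᵐ x ∂μ, ¬ TuringReducible (oracle (join fun j => f (word r s j • x))) (oracle (f x)) :=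
  Lib.MP_75b31c_lc.H40.thmC Γ X hact μ hμ hatom r hr s hs hgap Y hY hY1 f hf hred

end Pool.Agent.Results.MP_75b31c_lc.SpectralGap
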